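import Pool.Agent.W206.YP.Stm

/-!
Project YP (helper206), part LT: maximal atypical subvarieties and ideals.
-/

set_option autoImplicit false

namespace Pool.Agent.W290.YP.LT

open MvPolynomial UpperHalfPlane H294ZP Pool.Agent.W206.CT Pool.Agent.W206.YP

section

variable {σ : Type}

theorem le_IV {Q : Ideal (MvPolynomial σ ℂ)} {A : Set (σ → ℂ)} : Q ≤ IV A ↔ A ⊆ ZL Q :=
  ⟨fun h _ hx _ hf => h hf _ hx, fun h _ hf _ hx => h hx _ hf⟩

theorem IV_anti {A B : Set (σ → ℂ)} (h : A ⊆ B) : IV B ≤ IV A := fun _ hf x hx => hf x (h hx)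

theorem ZL_anti {P Q : Ideal (MvPolynomial σ ℂ)} (h : P ≤ Q) : ZL Q ⊆ ZL P :=
  fun _ hx f hf => hx f (h hf)

theorem ZL_sup (P Q : Ideal (MvPolynomial σ ℂ)) : ZL (P ⊔ Q) = ZL P ∩ ZL Q := by
  apply Set.Subset.antisymm
  · exact fun x hx => ⟨ZL_anti le_sup_left hx, ZL_anti le_sup_right hx⟩
  · rintro x ⟨h1, h2⟩ f hf
    obtain ⟨a, ha, b, hb, rfl⟩ := Submodule.mem_sup.1 hf
    rw [map_add, h1 a ha, h2 b hb, add_zero]

/-- strict inequality of dimensions -/
theorem dim_lt {p q : Ideal (MvPolynomial σ ℂ)} [p.IsPrime] (h : p ≤ q) (hne : ¬ q ≤ p) :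
    ringKrullDim (MvPolynomial σ ℂ ⧸ q) + 1 ≤ ringKrullDim (MvPolynomial σ ℂ ⧸ p) := by
  obtain ⟨r, hr, hrp⟩ := Set.not_subset.1 hne
  have hr0 : (Ideal.Quotient.mk p r) ∈ nonZeroDivisors (MvPolynomial σ ℂ ⧸ p) := by
    rw [mem_nonZeroDivisors_iff_ne_zero]
    intro h0
    exact hrp (Ideal.Quotient.eq_zero_iff_mem.1 h0)
  have h1 := ringKrullDim_quotient_succ_le_of_nonZeroDivisor hr0
  have h2 : ringKrullDim (MvPolynomial σ ℂ ⧸ q) ≤
      ringKrullDim ((MvPolynomial σ ℂ ⧸ p) ⧸ Ideal.span {Ideal.Quotient.mk p r}) := by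
    have hle : Ideal.span {Ideal.Quotient.mk p r} ≤ RingHom.ker (Ideal.Quotient.factor h) := by
      rw [Ideal.span_singleton_le_iff_mem, RingHom.mem_ker, Ideal.Quotient.factor_mk]
      exact Ideal.Quotient.eq_zero_iff_mem.2 hr
    let g := Ideal.Quotient.lift (Ideal.span {Ideal.Quotient.mk p r})
      (Ideal.Quotient.factor h) (fun a ha => hle ha)
    refine ringKrullDim_le_of_surjective g ?_
    apply Ideal.Quotient.lift_surjective_of_surjective
    exact Ideal.Quotient.factor_surjective h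
  exact (add_le_add_left h2 1).trans h1

theorem dim_le {p q : Ideal (MvPolynomial σ ℂ)} (h : p ≤ q) :
    ringKrullDim (MvPolynomial σ ℂ ⧸ q) ≤ ringKrullDim (MvPolynomial σ ℂ ⧸ p) :=
  ringKrullDim_le_of_surjective (Ideal.Quotient.factor h) (Ideal.Quotient.factor_surjective h)

end

theorem main : S_LT := by
  intro hDK hRL σ _ V hV
  have hZ : ∀ Q : Ideal (MvPolynomial σ ℂ), Q.IsPrime → IsVar (ZL Q) := by
    intro Q hQ
    have h1 := (hDK σ Q hQ).2
    refine ⟨by rw [h1], ?_⟩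
    rw [h1]
    exact hQ
  have hdim : ∀ A : Set (σ → ℂ), IsVar A → ∃ d : ℕ, vdim A = d ∧ ∀ m, DimGe (IV A) m ↔ m ≤ d :=
    fun A hA => (hDK σ (IV A) hA.2).1
  obtain ⟨dV, hdV, hdV'⟩ := hdim V hV
  -- (1)
  have h1 : ∀ A, Atypical V A → AtypI (IV V) (IV A) := by
    rintro A ⟨r, S, hS, ⟨hA, hAB, -⟩, hlt⟩
    obtain ⟨dA, hdA, hdA'⟩ := hdim A hA
    rw [hdV, hdA] at hlt
    have hlt' : dV + r < dA + Fintype.card σ := by exact_mod_cast hlt
    have hr : r ≤ Fintype.card σ := by
      obtain ⟨Z, -⟩ := hS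
      choose f hf using Z.surj
      have hinj : Function.Injective f := by
        intro a b hab
        have e1 := hf a
        have e2 := hf b
        rw [hab, e2] at e1
        exact (Option.some_injective _ e1).symm
      have := Fintype.card_le_of_injective f hinj
      rwa [Fintype.card_fin] at this
    have hQ := (hDK σ (IV A) hA.2).2
    obtain ⟨T, hT, hR⟩ := (hRL σ (IV A) hA.2 hQ (Fintype.card σ - r)).2
      ⟨r, S, by omega, hS, by rw [← hA.1]; exact hAB.trans Set.inter_subset_right⟩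
    refine ⟨hA.2, IV_anti (hAB.trans Set.inter_subset_left), dA, T, (hdA' dA).2 le_rfl, hR, ?_⟩
    rw [hdV', hT]
    omega
  -- (2)
  have h2 : ∀ Q, AtypI (IV V) Q → ∃ A, Atypical V A ∧ IV A ≤ Q := by
    rintro Q ⟨hQ, hPQ, m, T, hm, hT, hn⟩
    obtain ⟨⟨dQ, hdQ, hdQ'⟩, hIZ⟩ := hDK σ Q hQ
    obtain ⟨r, S, hrs, hS, hQS⟩ := (hRL σ Q hQ hIZ T.card).1 ⟨T, rfl, hT⟩
    obtain ⟨Z, rfl⟩ := id hS
    have hB : V ∩ ZL (IV Z.locus) = ZL (IV V ⊔ IV Z.locus) := by
      rw [ZL_sup, ← hV.1]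
    have hQB : IV V ⊔ IV Z.locus ≤ Q := by
      refine sup_le hPQ ?_
      rw [← hIZ]
      intro f hf x hx
      exact hQS hx f hf
    obtain ⟨p, hp, hpQ⟩ := Ideal.exists_minimalPrimes_le hQB
    have hpp : p.IsPrime := hp.1.1
    obtain ⟨⟨dp, hdp, -⟩, hIp⟩ := hDK σ p hpp
    refine ⟨ZL p, ⟨r, ZL (IV Z.locus), hS, ⟨hZ p hpp, ?_, ?_⟩, ?_⟩, ?_⟩
    · rw [hB]
      exact ZL_anti hp.1.2
    · intro A' hA' hsub hsub'
      rw [hB] at hsub'
      have e1 : IV V ⊔ IV Z.locus ≤ IV A' := le_IV.2 hsub'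
      have e2 : IV A' ≤ p := by
        have := IV_anti hsub
        rwa [hIp] at this
      have e3 : p ≤ IV A' := hp.2 ⟨hA'.2, e1⟩ e2
      rw [hA'.1, le_antisymm e2 e3]
    · have e1 : vdim (ZL p) = dp := by
        unfold vdim
        rw [hIp]
        exact hdp
      rw [hdV, e1]
      have e2 : dQ ≤ dp := by
        have := dim_le hpQ
        rw [hdQ, hdp] at this
        exact_mod_cast this
      have e3 : m ≤ dQ := (hdQ' m).1 hm
      have e4 : ¬ m + T.card ≤ dV := fun h => hn ((hdV' _).2 h)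
      have e5 : dV + r < dp + Fintype.card σ := by omega
      exact_mod_cast e5
    · rw [hIp]
      exact hpQ
  -- (3)
  have h3 : ∀ A, Atypical V A → ∃ A', A ⊆ A' ∧ Maximal (Atypical V) A' := by
    intro A hA
    have hvar : ∀ A', Atypical V A' → IsVar A' := by
      rintro A' ⟨r, S, -, ⟨h, -⟩, -⟩
      exact h
    have hbd : ∀ A', Atypical V A' → ∃ d : ℕ, vdim A' = d ∧ d ≤ dV := by
      intro A' hA'
      obtain ⟨d, hd, -⟩ := hdim A' (hvar A' hA')
      refine ⟨d, hd, ?_⟩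
      have e1 := dim_le (h1 A' hA').2.1
      have e2 : vdim A' ≤ vdim V := e1
      rw [hd, hdV] at e2
      exact_mod_cast e2
    have key : ∀ k : ℕ, ∀ A, Atypical V A → (∀ d : ℕ, vdim A = d → dV ≤ d + k) →
        ∃ A', A ⊆ A' ∧ Maximal (Atypical V) A' := by
      intro k
      induction k with
      | zero =>
        intro A hA hk
        refine ⟨A, subset_rfl, hA, ?_⟩
        intro A'' hA'' hsub
        by_contra hc
        obtain ⟨d, hd, hd'⟩ := hbd A hA
        obtain ⟨d'', hd'', hd'''⟩ := hbd A'' hA''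
        have e1 := hk d hd
        have hpr := (hvar A'' hA'').2
        have e2 := dim_lt (p := IV A'') (q := IV A) (IV_anti hsub) (by
          intro hle
          apply hc
          have := ZL_anti hle
          rw [← (hvar A hA).1, ← (hvar A'' hA'').1] at this
          exact this)
        have e3 : vdim A + 1 ≤ vdim A'' := e2
        rw [hd, hd''] at e3
        have e4 : d + 1 ≤ d'' := by exact_mod_cast e3
        omega
      | succ k ih =>
        intro A hA hk
        by_cases hmax : Maximal (Atypical V) A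
        · exact ⟨A, subset_rfl, hmax⟩
        · have : ∃ A'', Atypical V A'' ∧ A ⊆ A'' ∧ ¬ A'' ⊆ A := by
            by_contra hc
            push Not at hc
            exact hmax ⟨hA, fun A'' hA'' hsub => hc A'' hA'' hsub⟩
          obtain ⟨A'', hA'', hsub, hns⟩ := this
          obtain ⟨d, hd, hd'⟩ := hbd A hA
          have hpr := (hvar A'' hA'').2
          have e2 := dim_lt (p := IV A'') (q := IV A) (IV_anti hsub) (by
            intro hle
            apply hns
            have := ZL_anti hle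
            rw [← (hvar A hA).1, ← (hvar A'' hA'').1] at this
            exact this)
          have e3 : vdim A + 1 ≤ vdim A'' := e2
          obtain ⟨A', h4, h5⟩ := ih A'' hA'' (by
            intro d'' hd''
            rw [hd, hd''] at e3
            have e4 : d + 1 ≤ d'' := by exact_mod_cast e3
            have e5 := hk d hd
            omega)
          exact ⟨A', hsub.trans h4, h5⟩
    exact key dV A hA (fun d _ => by omega)
  -- (4)
  constructor
  · intro hfin0
    have hfin : {A | Maximal (Atypical V) A}.Finite := hfin0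
    classical
    refine ⟨(hfin.toFinset).image IV, ?_, ?_⟩
    · intro Q hQ
      obtain ⟨A, hA, rfl⟩ := Finset.mem_image.1 hQ
      rw [Set.Finite.mem_toFinset] at hA
      exact h1 A hA.1
    · intro Q hQ
      obtain ⟨A, hA, hAQ⟩ := h2 Q hQ
      obtain ⟨A', hAA', hA'⟩ := h3 A hA
      exact ⟨IV A', Finset.mem_image.2 ⟨A', (Set.Finite.mem_toFinset hfin).2 hA', rfl⟩,
        (IV_anti hAA').trans hAQ⟩
  · rintro ⟨S, hS, hS'⟩
    refine Set.Finite.subset ((S.finite_toSet).image ZL) ?_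
    intro A hA
    have hAt := h1 A hA.1
    obtain ⟨Q', hQ', hle⟩ := hS' _ hAt
    obtain ⟨A', hA', hle'⟩ := h2 Q' (hS Q' hQ')
    have hvarA : IsVar A := by
      obtain ⟨r, S, -, ⟨h, -⟩, -⟩ := hA.1
      exact h
    have hvarA' : IsVar A' := by
      obtain ⟨r, S, -, ⟨h, -⟩, -⟩ := hA'
      exact h
    have e1 : A ⊆ A' := by
      rw [hvarA'.1]
      exact le_IV.1 (hle'.trans hle)
    have e2 : A' ⊆ A := hA.2 hA' e1
    have e3 : IV A = Q' := le_antisymm ((IV_anti e2).trans hle') hle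
    exact ⟨Q', hQ', by rw [← e3]; exact hvarA.1.symm⟩

end Pool.Agent.W290.YP.LT
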